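import Mathlib
import Pool.Agent.Helper91.Bei.Main

/-!
# Beilinson's conjectures for threefolds and powers of divisors

The definitions are in `Pool/Agent/Helper81/Smash/Defs.lean` (rational Chow rings),
`Pool/Agent/Helper13/Sq/Defs.lean` (curves in threefolds and blow-ups) and
`Pool/Agent/Helper91/Bei/Defs.lean` (heights).

Proof. Let `x` be a class of codimension 2 homologous to zero on a threefold `X` with `L x = 0`. By
the theorem of `MP_bf8edd_ag.ThreefoldSquares` there are an iterated blow-up `f : Y ⟶ X` in points and
smooth curves and a divisor class `D` with `D² = f^* x`. The exceptional divisors `E` satisfy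
`E · f^* x = 0`, so that there is an ample class `L' = N f^* L - ∑ aⱼ Eⱼ` with `L' f^* x = 0`, and
`ht (D²) (D²) = ht x x`. Zero-cycles are cubes `D³` after blow-ups of points, since `E³` is a point.
-/

set_option autoImplicit false

open CategoryTheory CategoryTheory.Limits

namespace Pool.Agent.Results.MP_e2c9e7_nt.PowersOfDivisors

open Pool.Agent.Helper81.Smash Pool.Agent.Helper13.Sq Pool.Agent.Helper91.Bei

universe u v w

/-- Beilinson's Q1 and Q2 for all threefolds (and all ample classes) are equivalent to two
statements about the powers `D³` and `D²` of one divisor on threefolds. -/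
theorem result {𝒱 : Type u} [Category.{v} 𝒱] [HasFiniteProducts 𝒱] (S : HomCycles.{u, v, w} 𝒱)
    (K : Threefolds S) (hK : K.Standard) (H : Heights S) (hH : H.Standard K) :
    H.BeilinsonThreefolds ↔ H.BeilinsonPowers :=
  beilinson_iff K hK H hH

end Pool.Agent.Results.MP_e2c9e7_nt.PowersOfDivisors
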